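import Pool.Agent.Zk47.HT.Core

/-! # Project HT, part B: the tower -/

set_option autoImplicit false
set_option linter.all false

open Polynomial FF

namespace Pool.Agent.Zk47.HT

open Pool.Agent.Y157.PS Pool.Agent.Y157.GT Pool.Agent.Zk12.HT Pool.Agent.TH954 Pool.Agent.Zk12.FG

/-- the elements of `k₁(t₀)` which are algebraic over `k₁` -/
theorem mem_base {k₁ k : Type} [Field k₁] [Field k] [Algebra k₁ k] {t₀ : k}
    (ht : Transcendental k₁ t₀) (htop : IntermediateField.adjoin k₁ {t₀} = ⊤) (z : k)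
    (hz : IsAlgebraic k₁ z) : ∃ c : k₁, algebraMap k₁ k c = z := by
  have h1 : z ∈ IntermediateField.adjoin k₁ {t₀} := by
    rw [htop]
    exact IntermediateField.mem_top
  rw [IntermediateField.mem_adjoin_simple_iff] at h1
  obtain ⟨P, Q, h2⟩ := h1
  by_cases hQ : aeval t₀ Q = 0
  · rw [hQ, div_zero] at h2
    exact ⟨0, by rw [map_zero, h2]⟩
  have hzA : z ∈ algebraicClosure k₁ k := (mem_algebraicClosure_iff).2 hz
  have hAalg : Algebra.IsAlgebraic k₁ (algebraicClosure k₁ k) := inferInstance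
  have htA : Transcendental (algebraicClosure k₁ k) t₀ := fun h => ht (h.restrictScalars k₁)
  have h3 : aeval t₀ (P.map (algebraMap k₁ (algebraicClosure k₁ k)) -
      C ⟨z, hzA⟩ * Q.map (algebraMap k₁ (algebraicClosure k₁ k))) = 0 := by
    rw [map_sub, map_mul, aeval_C, aeval_map_algebraMap, aeval_map_algebraMap]
    change aeval t₀ P - z * aeval t₀ Q = 0
    rw [h2, div_mul_cancel₀ _ hQ, sub_self]
  have h4 := (transcendental_iff.1 htA) _ h3
  have hQ0 : Q ≠ 0 := by
    rintro rfl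
    exact hQ (map_zero _)
  have h5 := congrArg (fun p => coeff p Q.natDegree) h4
  simp only [coeff_sub, coeff_C_mul, coeff_map, coeff_zero] at h5
  have h6 : algebraMap k₁ k (P.coeff Q.natDegree) - z * algebraMap k₁ k (Q.coeff Q.natDegree) = 0 :=
    congrArg (fun w : algebraicClosure k₁ k => (w : k)) h5
  have h7 : algebraMap k₁ k (Q.coeff Q.natDegree) ≠ 0 :=
    (_root_.map_ne_zero _).2 (leadingCoeff_ne_zero.2 hQ0)
  refine ⟨P.coeff Q.natDegree / Q.coeff Q.natDegree, ?_⟩
  rw [map_div₀, div_eq_iff h7, sub_eq_zero.1 h6]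

theorem fg_of {n : ℕ} {k₁ : Type} [Field k₁] [CharZero k₁] (t : Fin n → k₁) :
    ∀ i : Algebra ℚ k₁, @RatFn ℚ k₁ _ _ i n t →
      @IntermediateField.FG ℚ _ k₁ _ DivisionRing.toRatAlgebra ⊤ := by
  classical
  intro i h
  have hi : i = DivisionRing.toRatAlgebra := Subsingleton.elim _ _
  subst hi
  refine ⟨Finset.univ.image t, ?_⟩
  rw [Finset.coe_image, Finset.coe_univ, Set.image_univ]
  exact h.2

/-- the automorphisms as ring automorphisms -/
def toRing {G F Ω : Type} [Group G] [Field F] [Field Ω] [Algebra F Ω] (S : G →* (Ω ≃ₐ[F] Ω)) :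
    G →* RingAut Ω where
  toFun g := (S g : Ω ≃+* Ω)
  map_one' := by
    ext z
    change S 1 z = z
    rw [map_one]
    rfl
  map_mul' g g' := by
    ext z
    change S (g * g') z = S g (S g' z)
    rw [map_mul]
    rfl

/-- `Ω` is algebraic over `κ(x)` -/
theorem closure_adj {k F Ω κ : Type} [Field k] [Field F] [Field Ω] [Field κ] [Algebra k F]
    [Algebra F Ω] [Algebra k Ω] [Algebra k κ] [Algebra κ Ω] [IsScalarTower k F Ω]
    [IsScalarTower k κ Ω] [IsAlgClosure F Ω] (x : F)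
    (halg : Algebra.IsAlgebraic (IntermediateField.adjoin k {x}) F) :
    IsAlgClosure (IntermediateField.adjoin κ {algebraMap F Ω x}) Ω := by
  haveI : IsAlgClosed Ω := IsAlgClosure.isAlgClosed F
  haveI : Algebra.IsAlgebraic F Ω := IsAlgClosure.isAlgebraic
  refine ⟨inferInstance, ?_⟩
  let K' := IntermediateField.adjoin k {x}
  let R := IntermediateField.adjoin κ {algebraMap F Ω x}
  have hmem : ∀ w : K', algebraMap F Ω w ∈ R := by
    intro w
    have h2 : ∀ w ∈ IntermediateField.adjoin k {x}, w ∈ R.toSubfield.comap (algebraMap F Ω) := by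
      refine adjoin_le_sub ?_ ?_
      · intro c
        rw [Subfield.mem_comap, ← IsScalarTower.algebraMap_apply, IsScalarTower.algebraMap_apply k κ Ω]
        exact R.algebraMap_mem _
      · intro w hw
        rw [Set.mem_singleton_iff] at hw
        rw [Subfield.mem_comap, hw]
        exact IntermediateField.mem_adjoin_simple_self _ _
    exact h2 w w.2
  haveI : IsScalarTower K' F Ω := inferInstance
  haveI : Algebra.IsAlgebraic K' Ω := Algebra.IsAlgebraic.trans K' F Ω
  let i : K' →+* R := ((algebraMap F Ω).comp (algebraMap K' F)).codRestrict R.toSubfield hmem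
  letI : Algebra K' R := i.toAlgebra
  haveI : IsScalarTower K' R Ω := IsScalarTower.of_algebraMap_eq fun r => rfl
  exact Algebra.IsAlgebraic.tower_top (K := K') R

theorem alg_sq {k₁ B : Type} [Field k₁] [Field B] [Algebra k₁ B] {q : B}
    (h : IsAlgebraic k₁ (q ^ 2)) : IsAlgebraic k₁ q := by
  rw [isAlgebraic_iff_isIntegral] at h ⊢
  exact h.of_pow two_pos

/-- the data of part B, for an abstract embedding of `B` in `Ω` -/
theorem tow_aux (hA : S_TOWA) (k₁ k F Ω B : Type) [Field k₁] [CharZero k₁] [Field k] [Field F]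
    [Field Ω] [Field B] [Algebra k₁ k] [Algebra k F] [Algebra F Ω] [Algebra k Ω]
    [Algebra k B] [Algebra k₁ B] [IsScalarTower k₁ k B] [IsScalarTower k F Ω] [IsAlgClosure F Ω]
    [IsAlgClosure k B] [Algebra B Ω] [IsScalarTower k B Ω] (hfg : (⊤ : IntermediateField ℚ k₁).FG)
    (t₀ : k) (f : k₁[X]) (x y : F) (htr : Transcendental k₁ t₀)
    (hgen : IntermediateField.adjoin k₁ {t₀} = ⊤) (hf : f.Separable) (hev : Even f.natDegree)
    (h4 : 4 ≤ f.natDegree) (hxt : Transcendental k x)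
    (halg : Algebra.IsAlgebraic (IntermediateField.adjoin k {x}) F)
    (heqn : algebraMap k F t₀ * y ^ 2 = aeval x (f.map (algebraMap k₁ k)))
    (S : (B ≃ₐ[k] B) →* (Ω ≃ₐ[F] Ω))
    (hS : ∀ σ c, S σ (algebraMap B Ω c) = algebraMap B Ω (σ c))
    (hcont : ∀ z : Ω, ∃ E : IntermediateField k B, FiniteDimensional k E ∧
      ∀ σ ∈ E.fixingSubgroup, S σ z = z) :
    ∃ (e : k₁) (T : Finset B) (a b c r : B) (X α β γ : ℕ → Ω), f.eval e = 0 ∧
      (∀ z ∈ T, IsAlgebraic k₁ z) ∧ a ∈ T ∧ b ∈ T ∧ c ∈ T ∧ a ≠ b ∧ b ≠ c ∧ a ≠ c ∧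
      r ^ 2 = algebraMap k B t₀ ∧
      X 0 = algebraMap F Ω (x - algebraMap k F (algebraMap k₁ k e))⁻¹ ∧
      Halves (algebraMap B Ω a) (algebraMap B Ω b) (algebraMap B Ω c) X α β γ ∧
      ∀ g : B ≃ₐ[k] B, (∀ z ∈ T, g z = z) → g r = r →
        ∀ j, S g (X j) = X j ∧ S g (α j) = α j ∧ S g (β j) = β j ∧ S g (γ j) = γ j := by
  classical
  haveI : CharZero k := charZero_of_injective_algebraMap (algebraMap k₁ k).injective
  haveI hkb : IsAlgClosed B := IsAlgClosure.isAlgClosed k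
  haveI hBalg : Algebra.IsAlgebraic k B := IsAlgClosure.isAlgebraic
  haveI : CharZero B := charZero_of_injective_algebraMap (algebraMap k B).injective
  haveI : Normal k B := IsAlgClosure.normal k B
  haveI : IsGalois k B := { }
  have hf0 : f ≠ 0 := hf.ne_zero
  have hlc0 : f.leadingCoeff ≠ 0 := leadingCoeff_ne_zero.2 hf0
  -- the elements `r`, `l`, `δ`
  obtain ⟨r, hr⟩ := IsAlgClosed.exists_pow_nat_eq (algebraMap k B t₀) (n := 2) two_pos
  obtain ⟨l, hl⟩ := IsAlgClosed.exists_pow_nat_eq (algebraMap k₁ B f.leadingCoeff) (n := 2) two_pos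
  have hlcB : algebraMap k₁ B f.leadingCoeff ≠ 0 := (_root_.map_ne_zero _).2 hlc0
  have ht0 : t₀ ≠ 0 := by
    intro h
    apply htr
    rw [h]
    exact isAlgebraic_zero
  have hδ : (r / l) ^ 2 = algebraMap k B (algebraMap k₁ k (f.leadingCoeff)⁻¹ * t₀ ^ (1 : ℤ)) := by
    rw [div_pow, hr, hl, zpow_one, map_mul, ← IsScalarTower.algebraMap_apply, map_inv₀,
      div_eq_mul_inv, mul_comm]
  have hδ0 : r / l ≠ 0 := by
    intro h
    rw [h, zero_pow two_ne_zero, zpow_one] at hδ
    exact (_root_.map_ne_zero _).2 (mul_ne_zero ((_root_.map_ne_zero _).2 (inv_ne_zero hlc0)) ht0)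
      hδ.symm
  -- the roots
  obtain ⟨P, hP⟩ : ∃ P : B[X], P = f.map (algebraMap k₁ B) := ⟨_, rfl⟩
  have hPsep : P.Separable := by rw [hP]; exact hf.map
  have hnd : P.roots.Nodup := nodup_roots hPsep
  have hP0 : P ≠ 0 := hPsep.ne_zero
  have hPdeg : P.natDegree = f.natDegree := by rw [hP, natDegree_map]
  have hPlc : P.leadingCoeff = algebraMap k₁ B f.leadingCoeff := by rw [hP, leadingCoeff_map]
  obtain ⟨E, hEdef⟩ : ∃ E : Finset B, E = P.roots.toFinset := ⟨_, rfl⟩
  have hmemE : ∀ θ, θ ∈ E ↔ f.eval₂ (algebraMap k₁ B) θ = 0 := by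
    intro θ
    rw [hEdef, Multiset.mem_toFinset, mem_roots hP0, IsRoot.def, hP, eval_map]
  have hcard : E.card = f.natDegree := by
    rw [hEdef, Multiset.toFinset_card_of_nodup hnd, ← hPdeg]
    exact (IsAlgClosed.splits P).natDegree_eq_card_roots.symm
  have hEalg : ∀ e ∈ E, IsAlgebraic k₁ e := fun e he => ⟨f, hf0, by
    rw [aeval_def]
    exact (hmemE e).1 he⟩
  have hEalg' : ∀ e ∈ E, ∃ P : k₁[X], P ≠ 0 ∧
      P.eval₂ ((algebraMap k B).comp (algebraMap k₁ k)) e = 0 := fun e he =>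
    ⟨f, hf0, by
      rw [← IsScalarTower.algebraMap_eq]
      exact (hmemE e).1 he⟩
  -- the product formula
  have hPx : ∀ z : Ω, P.eval₂ (algebraMap B Ω) z =
      algebraMap B Ω (algebraMap k₁ B f.leadingCoeff) * ∏ e ∈ E, (z - algebraMap B Ω e) := by
    intro z
    have h1 := (IsAlgClosed.splits P).eq_prod_roots
    rw [hPlc] at h1
    have h6 : ∏ e ∈ E, (z - algebraMap B Ω e) =
        (P.roots.map fun e => z - algebraMap B Ω e).prod := by
      rw [hEdef, Finset.prod, Multiset.toFinset_val, Multiset.dedup_eq_self.2 hnd]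
    rw [h6]
    conv_lhs => rw [h1]
    rw [eval₂_mul, eval₂_C, ← coe_eval₂RingHom, map_multiset_prod, Multiset.map_map]
    congr 2
    refine Multiset.map_congr rfl fun a _ => ?_
    simp
  have hfx : algebraMap F Ω (aeval x (f.map (algebraMap k₁ k))) =
      P.eval₂ (algebraMap B Ω) (algebraMap F Ω x) := by
    rw [aeval_def, hom_eval₂, hP, eval₂_map, eval₂_map, ← IsScalarTower.algebraMap_eq k F Ω,
      IsScalarTower.algebraMap_eq k₁ k B, ← RingHom.comp_assoc,
      ← IsScalarTower.algebraMap_eq k B Ω]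
  obtain ⟨Y0, hY0⟩ : ∃ Y0 : Ω, Y0 = algebraMap B Ω (r / l) * algebraMap F Ω y := ⟨_, rfl⟩
  have hY : Y0 ^ 2 = ∏ e ∈ E, (algebraMap F Ω x - algebraMap B Ω e) := by
    have h1 := congrArg (algebraMap F Ω) heqn
    rw [map_mul, map_pow, ← IsScalarTower.algebraMap_apply, hfx, hPx] at h1
    have h5 : algebraMap B Ω (algebraMap k₁ B f.leadingCoeff) ≠ 0 := (_root_.map_ne_zero _).2 hlcB
    have h6 : algebraMap B Ω (r / l) ^ 2 =
        algebraMap k Ω t₀ / algebraMap B Ω (algebraMap k₁ B f.leadingCoeff) := by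
      rw [← map_pow, div_pow, hr, hl, map_div₀, ← IsScalarTower.algebraMap_apply]
    rw [hY0, mul_pow, h6, div_mul_eq_mul_div, h1, mul_div_cancel_left₀ _ h5]
  -- the section
  have hX0 : Transcendental k (algebraMap F Ω x) :=
    (transcendental_algebraMap_iff (R := k) (algebraMap F Ω).injective (a := x)).2 hxt
  have hX0' : Transcendental B (algebraMap F Ω x) := fun h => hX0 (h.restrictScalars k)
  haveI hcl : IsAlgClosure (IntermediateField.adjoin B {algebraMap F Ω x}) Ω :=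
    closure_adj (k := k) x halg
  have hS' : ∀ (σ : B ≃ₐ[k] B) (c : B), toRing S σ (algebraMap B Ω c) = algebraMap B Ω (σ c) :=
    fun σ c => hS σ c
  have hSF : ∀ (σ : B ≃ₐ[k] B) (z : F), toRing S σ (algebraMap F Ω z) = algebraMap F Ω z :=
    fun σ z => (S σ).commutes z
  have hSy : ∀ σ : B ≃ₐ[k] B, toRing S σ Y0 = algebraMap B Ω (σ (r / l) / (r / l)) * Y0 := by
    intro σ
    rw [hY0, map_mul, hS', hSF, ← mul_assoc, ← map_mul, div_mul_cancel₀ _ hδ0]
  have hodd : ¬ ((2 : ℕ) : ℤ) ∣ 1 := by decide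
  obtain ⟨e, heE, hfix, a, b, c, q, X, α, β, γ, hab, hbc, hac, ha, hb, hc, hq, hX, hH, hg⟩ :=
    core b_gt a_cov hA hfg t₀ htr hgen (f.leadingCoeff)⁻¹ 1 (r / l) (inv_ne_zero hlc0)
      hodd hδ (algebraMap F Ω x) hX0' E (by rw [hcard]; exact hev.two_dvd)
      (by rw [hcard]; exact le_trans (by norm_num) h4) hEalg' Y0 hY (toRing S) hS'
      (fun σ => hSF σ x) hSy hcont
  -- the root `e` is rational
  obtain ⟨e', he'⟩ := (InfiniteGalois.mem_range_algebraMap_iff_fixed e).2 hfix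
  have he'alg : IsAlgebraic k₁ e' := by
    have h1 := hEalg e heE
    rw [← he'] at h1
    exact (isAlgebraic_algebraMap_iff (algebraMap k B).injective).1 h1
  obtain ⟨e₀, he₀⟩ := mem_base htr hgen e' he'alg
  have he₀B : algebraMap k₁ B e₀ = e := by
    rw [IsScalarTower.algebraMap_apply k₁ k B, he₀, he']
  have hroot : f.eval e₀ = 0 := by
    have h1 := (hmemE e).1 heE
    rw [← he₀B, eval₂_at_apply] at h1
    exact (_root_.map_eq_zero _).1 h1
  have halgInv : ∀ a : B, (∃ e₁ ∈ E, e₁ ≠ e ∧ a = (e₁ - e)⁻¹) → IsAlgebraic k₁ a := by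
    rintro a ⟨e₁, he₁, -, rfl⟩
    exact ((hEalg e₁ he₁).sub (hEalg e heE)).inv
  have halgq : IsAlgebraic k₁ q := by
    apply alg_sq
    rw [hq]
    refine IsAlgebraic.neg ?_
    have h1 : ∀ e₁ ∈ E.erase e, (e₁ - e) ∈ algebraicClosure k₁ B := by
      intro e₁ he₁
      exact mem_algebraicClosure_iff.2 ((hEalg e₁ (Finset.mem_of_mem_erase he₁)).sub (hEalg e heE))
    exact mem_algebraicClosure_iff.1 (prod_mem h1)
  have halgl : IsAlgebraic k₁ l := by
    apply alg_sq
    rw [hl]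
    exact isAlgebraic_algebraMap _
  refine ⟨e₀, E ∪ {a, b, c, q, l}, a, b, c, r, X, α, β, γ, hroot, ?_, ?_, ?_, ?_, hab, hbc, hac, hr,
    ?_, hH, ?_⟩
  · intro z hz
    simp only [Finset.mem_union, Finset.mem_insert, Finset.mem_singleton] at hz
    rcases hz with hz | rfl | rfl | rfl | rfl | rfl
    · exact hEalg z hz
    · exact halgInv _ ha
    · exact halgInv _ hb
    · exact halgInv _ hc
    · exact halgq
    · exact halgl
  · simp
  · simp
  · simp
  · rw [hX, map_inv₀, map_sub, ← IsScalarTower.algebraMap_apply, ← he', ← he₀,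
      ← IsScalarTower.algebraMap_apply k B Ω]
  · intro g hgT hgr j
    have hgl : g l = l := hgT l (by simp)
    refine hg g (fun z hz => hgT z (Finset.mem_union_left _ hz)) (hgT q (by simp)) ?_ j
    rw [map_div₀, hgr, hgl]

/-- **part B (tower)** -/
theorem tow (hA : S_TOWA) : S_TOW := by
  intro n k₁ k F Ω B _ _ _ _ _ _ _ _ _ _ _ _ _ _ _ _ t t₀ f x y hset s
  haveI : CharZero k₁ := algebraRat.charZero k₁
  haveI : Algebra.IsAlgebraic F Ω := IsAlgClosure.isAlgebraic
  letI : Algebra B Ω := s.j.toRingHom.toAlgebra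
  haveI : IsScalarTower k B Ω := IsScalarTower.of_algebraMap_eq fun c => (s.j.commutes c).symm
  exact tow_aux hA k₁ k F Ω B (fg_of t _ hset.rat) t₀ f x y hset.trans hset.gen hset.sep hset.even
    hset.four hset.x_trans hset.alg hset.eqn s.s (fun σ c => s.sec σ c)
    (fun z => cont_fix s.s s.cont z)

end Pool.Agent.Zk47.HT
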