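import Pool.Agent.Zk47.HT.Tow
import Pool.Agent.Zk12.HT.Stm2

/-! # Project HT, part B: the tower, over a finitely generated field -/

set_option autoImplicit false
set_option linter.all false

open Polynomial FF

namespace Pool.Agent.Zk47.HT

open Pool.Agent.Y157.PS Pool.Agent.Y157.GT Pool.Agent.Zk12.HT Pool.Agent.TH954

/-- **part B (tower)** -/
theorem towF (hA : S_TOWA) : S_TOWF := by
  intro k₁ k F Ω B _ _ _ _ _ _ _ _ _ _ _ _ _ _ _ _ t₀ f x y hset s
  haveI : Algebra.IsAlgebraic F Ω := IsAlgClosure.isAlgebraic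
  letI : Algebra B Ω := s.j.toRingHom.toAlgebra
  haveI : IsScalarTower k B Ω := IsScalarTower.of_algebraMap_eq fun c => (s.j.commutes c).symm
  exact tow_aux hA k₁ k F Ω B hset.fg t₀ f x y hset.trans hset.gen hset.sep hset.even
    hset.four hset.x_trans hset.alg hset.eqn s.s (fun σ c => s.sec σ c)
    (fun z => cont_fix s.s s.cont z)

end Pool.Agent.Zk47.HT
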