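import Pool.Agent.Zk47.HT.NearA

/-! # Project HT+, part ON: good points near a point -/

set_option autoImplicit false
set_option linter.all false

open Polynomial Filter Topology

namespace Pool.Agent.Zk47.HT

open Pool.Agent.Zk80.HT

theorem near_aux {n : ℕ} {F L : Type} [Field F] [CharZero F] [NontriviallyNormedField L]
    [CompleteSpace L] (j : F →+* L) (m : (A n)[X]) (a v : Fin n → ℚ) (θa : F)
    (h0 : ev (Rat.castHom F) (fun i => (a i : F)) θa m = 0)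
    (h1 : ev (Rat.castHom F) (fun i => (a i : F)) θa (derivative m) ≠ 0) (N : ℕ) (ρN : F[X])
    (hρN : ρN.eval 0 = θa) (H : F[X])
    (hH : ev (C.comp (Rat.castHom F)) (tS a v) ρN m = X ^ (N + 1) * H)
    (P : (A n)[X]) (Q : A n) (P1 Q1 : F[X]) (d e : ℕ) (hd : d ≤ N)
    (hP : ev (C.comp (Rat.castHom F)) (tS a v) ρN P = X ^ d * P1)
    (hQ : evt (C.comp (Rat.castHom F)) (tS a v) Q = X ^ e * Q1)
    (hP1 : P1.eval 0 ≠ 0) (hQ1 : Q1.eval 0 ≠ 0) (l : ℕ) (hl : 1 ≤ l) (ε : ℝ) (hε : 0 < ε) :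
    ∃ (τ : Fin n → L) (ρ u w : L),
      Function.Injective (evt (j.comp (Rat.castHom F)) τ) ∧
      ev (j.comp (Rat.castHom F)) τ ρ m = 0 ∧
      (∀ i, ‖τ i - j (a i)‖ < ε) ∧ ‖ρ - j θa‖ < ε ∧ ‖u - 1‖ < ε ∧ w ≠ 0 ∧
      ev (j.comp (Rat.castHom F)) τ ρ P / evt (j.comp (Rat.castHom F)) τ Q =
        j (P1.eval 0 / Q1.eval 0) * u * w ^ l := by
  obtain ⟨i, hi⟩ : ∃ i : ℚ →+* L, i = j.comp (Rat.castHom F) := ⟨_, rfl⟩
  rw [← hi]
  -- the point
  obtain ⟨aL, haL⟩ : ∃ aL : Fin n → L, aL = fun k => j (a k) := ⟨_, rfl⟩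
  have hbase : ∀ g : (A n)[X], j (ev (Rat.castHom F) (fun i => (a i : F)) θa g) =
      ev i aL (j θa) g := by
    intro g
    rw [comp_ev', hi, haL]
  have h0L : ev i aL (j θa) m = 0 := by rw [← hbase, h0, map_zero]
  obtain ⟨μ, hμ⟩ : ∃ μ, μ = ev i aL (j θa) (derivative m) := ⟨_, rfl⟩
  have hμ0 : μ ≠ 0 := by
    rw [hμ, ← hbase]
    exact (_root_.map_ne_zero j).2 h1
  have hμp : 0 < ‖μ‖ := norm_pos_iff.2 hμ0
  -- evaluation on the line
  obtain ⟨tL, htL⟩ : ∃ tL : L → Fin n → L, tL = fun s k => j (a k) + s * j (v k) := ⟨_, rfl⟩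
  obtain ⟨rL, hrL⟩ : ∃ rL : L → L, rL = fun s => eval₂ j s ρN := ⟨_, rfl⟩
  have hi' : ∀ s : L, (eval₂RingHom j s).comp (C.comp (Rat.castHom F)) = i := fun s =>
    RingHom.ext_rat _ _
  have ht' : ∀ s : L, (fun k => eval₂RingHom j s (tS a v k)) = tL s := by
    intro s
    rw [htL]
    funext k
    simp only [tS, coe_eval₂RingHom, eval₂_add, eval₂_mul, eval₂_C, eval₂_X]
  have hr' : ∀ s : L, eval₂RingHom j s ρN = rL s := by
    intro s
    rw [hrL]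
    rfl
  have hline : ∀ (s : L) (g : (A n)[X]), ev i (tL s) (rL s) g =
      eval₂ j s (ev (C.comp (Rat.castHom F)) (tS a v) ρN g) := by
    intro s g
    have h2 := comp_ev' (eval₂RingHom j s) (C.comp (Rat.castHom F)) (tS a v) ρN g
    rw [hi', ht', hr'] at h2
    exact h2.symm
  have hline' : ∀ (s : L) (g : A n), evt i (tL s) g =
      eval₂ j s (evt (C.comp (Rat.castHom F)) (tS a v) g) := by
    intro s g
    have h2 := comp_evt' (eval₂RingHom j s) (C.comp (Rat.castHom F)) (tS a v) g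
    rw [hi', ht'] at h2
    exact h2.symm
  have hlm : ∀ s : L, ev i (tL s) (rL s) m = s ^ (N + 1) * eval₂ j s H := by
    intro s
    rw [hline, hH, eval₂_mul, eval₂_X_pow]
  have hlP : ∀ s : L, ev i (tL s) (rL s) P = s ^ d * eval₂ j s P1 := by
    intro s
    rw [hline, hP, eval₂_mul, eval₂_X_pow]
  have hlQ : ∀ s : L, evt i (tL s) Q = s ^ e * eval₂ j s Q1 := by
    intro s
    rw [hline', hQ, eval₂_mul, eval₂_X_pow]
  have hcontP : ∀ g : F[X], Continuous fun s : L => eval₂ j s g := by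
    intro g
    simp only [eval₂_eq_eval_map]
    exact Polynomial.continuous _
  have hat0 : ∀ g : F[X], eval₂ j 0 g = j (g.eval 0) := by
    intro g
    rw [← map_zero j, eval₂_at_apply]
  have htL0 : tL 0 = aL := by
    rw [htL, haL]
    simp
  have hrL0 : rL 0 = j θa := by
    rw [hrL]
    simp only
    rw [hat0, hρN]
  have htLc : Continuous tL := by
    rw [htL]
    fun_prop
  have hrLc : Continuous rL := by
    rw [hrL]
    exact hcontP ρN
  -- the constant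
  obtain ⟨c, hc⟩ : ∃ c : L, c = j (P1.eval 0 / Q1.eval 0) := ⟨_, rfl⟩
  have hc0 : c ≠ 0 := by
    rw [hc]
    exact (_root_.map_ne_zero j).2 (div_ne_zero hP1 hQ1)
  rw [← hc]
  have hQ10 : eval₂ j 0 Q1 ≠ 0 := by
    rw [hat0]
    exact (_root_.map_ne_zero j).2 hQ1
  -- the neighbourhood of the point
  obtain ⟨M, hM⟩ : ∃ M : ℝ, M = ‖GG i P (aL, j θa, j θa)‖ + 1 := ⟨_, rfl⟩
  have hM0 : 0 < M := by
    rw [hM]
    positivity
  have hN1 : ∀ᶠ q in 𝓝 (aL, j θa, j θa), ‖GG i P q‖ < M := by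
    have h2 := (GG_cont i P).norm.tendsto (aL, j θa, j θa)
    exact h2.eventually_lt_const (by rw [hM]; linarith)
  have hN2 : ∀ᶠ q in 𝓝 (aL, j θa, j θa), ‖μ‖ / 2 < ‖GG i m q‖ := by
    have h2 := (GG_cont i m).norm.tendsto (aL, j θa, j θa)
    refine h2.eventually_const_lt ?_
    rw [GG_diag, ← hμ]
    linarith
  obtain ⟨δ, hδ, hball⟩ := Metric.mem_nhds_iff.1 (hN1.and hN2)
  obtain ⟨η, hη⟩ : ∃ η, η = min (δ / 2) (ε / 2) := ⟨_, rfl⟩
  have hη0 : 0 < η := by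
    rw [hη]
    exact lt_min (by linarith) (by linarith)
  have hηδ : η < δ := by
    rw [hη]
    exact lt_of_le_of_lt (min_le_left _ _) (by linarith)
  have hηε : η < ε := by
    rw [hη]
    exact lt_of_le_of_lt (min_le_right _ _) (by linarith)
  -- the function to control
  have hΨ : ∀ᶠ q in 𝓝 ((0 : L), (0 : L)), ‖(eval₂ j q.1 P1 + q.2) / eval₂ j q.1 Q1 / c - 1‖ < ε := by
    have h2a : ContinuousAt (fun q : L × L => eval₂ j q.1 P1 + q.2) ((0 : L), (0 : L)) :=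
      (((hcontP P1).comp continuous_fst).add continuous_snd).continuousAt
    have h2b : ContinuousAt (fun q : L × L => eval₂ j q.1 Q1) ((0 : L), (0 : L)) :=
      ((hcontP Q1).comp continuous_fst).continuousAt
    have h2 : ContinuousAt (fun q : L × L => (eval₂ j q.1 P1 + q.2) / eval₂ j q.1 Q1 / c - 1)
        ((0 : L), (0 : L)) :=
      ((h2a.div h2b hQ10).div_const c).sub continuousAt_const
    have h3 := h2.norm
    refine h3.tendsto.eventually_lt_const ?_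
    simp only
    rw [add_zero, hat0, hat0, ← map_div₀, ← hc, div_self hc0, sub_self, norm_zero]
    exact hε
  obtain ⟨δ₂, hδ₂, hball₂⟩ := Metric.mem_nhds_iff.1 hΨ
  -- small parameters
  obtain ⟨π, hπ0, hπ1⟩ := NormedField.exists_norm_lt_one L
  have hπne : π ≠ 0 := norm_pos_iff.1 hπ0
  have hlt : ‖π ^ l‖ < 1 := by
    rw [norm_pow]
    exact pow_lt_one₀ (norm_nonneg _) hπ1 (by omega)
  have hs : Tendsto (fun k : ℕ => (π ^ l) ^ k) atTop (𝓝 0) :=
    tendsto_pow_atTop_nhds_zero_of_norm_lt_one hlt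
  have hE1 : ∀ᶠ s in 𝓝 (0 : L), ∃ ρ : L, ‖ρ - j θa‖ ≤ η ∧ ev i (tL s) ρ m = 0 := by
    have h2 := open_root i m aL (j θa) h0L (by rw [← hμ]; exact hμ0) η hη0
    rw [← htL0] at h2
    exact (htLc.tendsto 0).eventually h2
  have hE2 : ∀ᶠ s in 𝓝 (0 : L), dist (tL s) aL < min δ ε := by
    have h2 := htLc.tendsto 0
    rw [htL0] at h2
    exact h2.eventually (Metric.ball_mem_nhds aL (lt_min hδ hε))
  have hE3 : ∀ᶠ s in 𝓝 (0 : L), dist (rL s) (j θa) < δ := by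
    have h2 := hrLc.tendsto 0
    rw [hrL0] at h2
    exact h2.eventually (Metric.ball_mem_nhds (j θa) hδ)
  have hE4 : ∀ᶠ s in 𝓝 (0 : L), ‖s‖ < δ₂ := by
    have h2 : ∀ᶠ s in 𝓝 (0 : L), dist s 0 < δ₂ := Metric.ball_mem_nhds 0 hδ₂
    simpa [dist_zero_right] using h2
  have hE5 : ∀ᶠ s in 𝓝 (0 : L), M * (2 / ‖μ‖ * (‖s‖ ^ (N + 1 - d) * ‖eval₂ j s H‖)) < δ₂ := by
    have h2 : Continuous fun s : L => M * (2 / ‖μ‖ * (‖s‖ ^ (N + 1 - d) * ‖eval₂ j s H‖)) :=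
      continuous_const.mul (continuous_const.mul ((continuous_norm.pow _).mul (hcontP H).norm))
    refine (h2.tendsto 0).eventually_lt_const ?_
    rw [norm_zero, zero_pow (by omega), zero_mul, mul_zero, mul_zero]
    exact hδ₂
  have hE6 : ∀ᶠ s in 𝓝 (0 : L), eval₂ j s Q1 ≠ 0 :=
    (hcontP Q1).continuousAt.eventually_ne hQ10
  obtain ⟨k, ⟨ρ₀, hρ₀, hroot⟩, hk2, hk3, hk4, hk5, hk6⟩ := (hs.eventually
    (hE1.and (hE2.and (hE3.and (hE4.and (hE5.and hE6)))))).exists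
  obtain ⟨s, hsdef⟩ : ∃ s : L, s = (π ^ l) ^ k := ⟨_, rfl⟩
  rw [← hsdef] at hroot hk2 hk3 hk4 hk5 hk6
  have hs0 : s ≠ 0 := by
    rw [hsdef]
    exact pow_ne_zero _ (pow_ne_zero _ hπne)
  -- the estimate of the root
  have hq1 : (tL s, ρ₀, rL s) ∈ Metric.ball (aL, j θa, j θa) δ := by
    rw [Metric.mem_ball, Prod.dist_eq, Prod.dist_eq]
    refine max_lt (lt_of_lt_of_le hk2 (min_le_left _ _)) (max_lt ?_ hk3)
    rw [dist_eq_norm]
    exact lt_of_le_of_lt hρ₀ hηδ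
  obtain ⟨hG1, hG2⟩ := hball hq1
  have hGne : GG i m (tL s, ρ₀, rL s) ≠ 0 := by
    intro h
    rw [h, norm_zero] at hG2
    linarith
  have hdist : ‖ρ₀ - rL s‖ ≤ 2 / ‖μ‖ * (‖s‖ ^ (N + 1) * ‖eval₂ j s H‖) := by
    have h2 := GG_sub i m (tL s) ρ₀ (rL s)
    rw [hroot, hlm, zero_sub] at h2
    have h3 : ‖s‖ ^ (N + 1) * ‖eval₂ j s H‖ = ‖GG i m (tL s, ρ₀, rL s)‖ * ‖ρ₀ - rL s‖ := by
      rw [← norm_mul, ← h2, norm_neg, norm_mul, norm_pow]
    rw [h3, ← mul_assoc]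
    refine le_mul_of_one_le_left (norm_nonneg _) ?_
    rw [div_mul_eq_mul_div, le_div_iff₀ hμp]
    linarith
  obtain ⟨κ, hκ⟩ : ∃ κ : L, κ = GG i P (tL s, ρ₀, rL s) * (ρ₀ - rL s) / s ^ d := ⟨_, rfl⟩
  have hPρ : ev i (tL s) ρ₀ P = s ^ d * (eval₂ j s P1 + κ) := by
    have h2 := GG_sub i P (tL s) ρ₀ (rL s)
    rw [hlP] at h2
    rw [hκ, mul_add, mul_div_cancel₀ _ (pow_ne_zero d hs0)]
    linear_combination h2
  have hκn : ‖κ‖ < δ₂ := by
    refine lt_of_le_of_lt ?_ hk5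
    rw [hκ, norm_div, norm_mul, norm_pow]
    have hsd : 0 < ‖s‖ ^ d := pow_pos (norm_pos_iff.2 hs0) d
    rw [div_le_iff₀ hsd]
    have h3 : ‖s‖ ^ (N + 1) = ‖s‖ ^ (N + 1 - d) * ‖s‖ ^ d := by
      rw [← pow_add]
      congr 1
      omega
    rw [h3] at hdist
    calc ‖GG i P (tL s, ρ₀, rL s)‖ * ‖ρ₀ - rL s‖
        ≤ M * (2 / ‖μ‖ * (‖s‖ ^ (N + 1 - d) * ‖s‖ ^ d * ‖eval₂ j s H‖)) :=
          mul_le_mul hG1.le hdist (norm_nonneg _) hM0.le
      _ = _ := by ring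
  have hΨs : ‖(eval₂ j s P1 + κ) / eval₂ j s Q1 / c - 1‖ < ε := by
    have h2 : (s, κ) ∈ Metric.ball ((0 : L), (0 : L)) δ₂ := by
      rw [Metric.mem_ball, Prod.dist_eq, dist_zero_right, dist_zero_right]
      exact max_lt hk4 hκn
    exact hball₂ h2
  -- the power
  obtain ⟨w, hw⟩ : ∃ w : L, w = (π ^ k) ^ d / (π ^ k) ^ e := ⟨_, rfl⟩
  have hw0 : w ≠ 0 := by
    rw [hw]
    exact div_ne_zero (pow_ne_zero _ (pow_ne_zero _ hπne)) (pow_ne_zero _ (pow_ne_zero _ hπne))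
  have hwl : w ^ l = s ^ d / s ^ e := by
    rw [hw, div_pow, hsdef]
    congr 1
    · ring
    · ring
  have hcw : c * w ^ l ≠ 0 := mul_ne_zero hc0 (pow_ne_zero _ hw0)
  have hQ0 : evt i (tL s) Q ≠ 0 := by
    rw [hlQ]
    exact mul_ne_zero (pow_ne_zero _ hs0) hk6
  -- the derivative at the new point
  have hder : ev i (tL s) ρ₀ (derivative m) ≠ 0 := by
    have h2 : (tL s, ρ₀, ρ₀) ∈ Metric.ball (aL, j θa, j θa) δ := by
      rw [Metric.mem_ball, Prod.dist_eq, Prod.dist_eq]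
      have h3 : dist ρ₀ (j θa) < δ := by
        rw [dist_eq_norm]
        exact lt_of_le_of_lt hρ₀ hηδ
      exact max_lt (lt_of_lt_of_le hk2 (min_le_left _ _)) (max_lt h3 h3)
    obtain ⟨-, h4⟩ := hball h2
    rw [GG_diag] at h4
    intro h
    rw [h, norm_zero] at h4
    linarith
  -- the neighbourhood of the new point
  let U : (Fin n → L) × L → L := fun q => ev i q.1 q.2 P / evt i q.1 Q / (c * w ^ l)
  have hU0 : U (tL s, ρ₀) = (eval₂ j s P1 + κ) / eval₂ j s Q1 / c := by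
    simp only [U]
    rw [hPρ, hlQ, hwl]
    field_simp
  have hUc : ContinuousAt U (tL s, ρ₀) := by
    have h2a : ContinuousAt (fun q : (Fin n → L) × L => ev i q.1 q.2 P) (tL s, ρ₀) :=
      (ev_cont i P).continuousAt
    have h2b : ContinuousAt (fun q : (Fin n → L) × L => evt i q.1 Q) (tL s, ρ₀) :=
      ((evt_cont i Q).comp continuous_fst).continuousAt
    exact (h2a.div h2b hQ0).div_const (c * w ^ l)
  have hV1 : ∀ᶠ q in 𝓝 (tL s, ρ₀), ‖U q - 1‖ < ε := by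
    have h2 : ContinuousAt (fun q => ‖U q - 1‖) (tL s, ρ₀) :=
      (hUc.sub continuousAt_const).norm
    refine h2.tendsto.eventually_lt_const ?_
    rw [hU0]
    exact hΨs
  have hV2 : ∀ᶠ q in 𝓝 (tL s, ρ₀), dist q.1 aL < ε := by
    have h2 : Continuous fun q : (Fin n → L) × L => dist q.1 aL := continuous_fst.dist
      continuous_const
    exact (h2.tendsto (tL s, ρ₀)).eventually_lt_const (lt_of_lt_of_le hk2 (min_le_right _ _))
  have hV3 : ∀ᶠ q in 𝓝 (tL s, ρ₀), ‖q.2 - j θa‖ < ε := by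
    have h2 : Continuous fun q : (Fin n → L) × L => ‖q.2 - j θa‖ :=
      (continuous_snd.sub continuous_const).norm
    exact (h2.tendsto (tL s, ρ₀)).eventually_lt_const (lt_of_le_of_lt hρ₀ hηε)
  obtain ⟨δ₃, hδ₃, hball₃⟩ := Metric.mem_nhds_iff.1 (hV1.and (hV2.and hV3))
  have hW1 := open_root i m (tL s) ρ₀ hroot hder (δ₃ / 2) (by linarith)
  have hW2 : ∀ᶠ τ in 𝓝 (tL s), dist τ (tL s) < δ₃ := Metric.ball_mem_nhds _ hδ₃
  obtain ⟨τ, ⟨⟨ρ, hρ1, hρ2⟩, hτ1⟩, hτ2⟩ := mem_closure_iff_nhds.1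
    (dense_inj (n := n) i (tL s)) _ (hW1.and hW2)
  have hmem : (τ, ρ) ∈ Metric.ball (tL s, ρ₀) δ₃ := by
    rw [Metric.mem_ball, Prod.dist_eq]
    refine max_lt hτ1 ?_
    rw [dist_eq_norm]
    linarith
  obtain ⟨hR1, hR2, hR3⟩ := hball₃ hmem
  refine ⟨τ, ρ, U (τ, ρ), w, hτ2, hρ2, fun r => ?_, hR3, hR1, hw0, ?_⟩
  · have h2 := dist_le_pi_dist τ aL r
    rw [dist_eq_norm] at h2
    have h3 : aL r = j (a r) := by rw [haL]
    rw [h3] at h2
    exact lt_of_le_of_lt h2 hR2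
  · simp only [U]
    field_simp

theorem exists_dir' {n : ℕ} (g : A n) (hg : g ≠ 0) (a : Fin n → ℚ) :
    ∃ v : Fin n → ℚ, MvPolynomial.eval (fun i => a i + v i) g ≠ 0 := by
  by_contra h
  push Not at h
  apply hg
  apply MvPolynomial.funext
  intro x
  have := h (fun i => x i - a i)
  simpa using this

/-- **part ON** -/
theorem neark : S_NEARK := by
  intro n F _ _ m a θa hm h0 h1 P P' R Q hR hQ hdvd l hl
  obtain ⟨v, hv⟩ := exists_dir' (R * Q) (mul_ne_zero hR hQ) a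
  rw [map_mul] at hv
  have hne : ∀ g : A n, MvPolynomial.eval (fun i => a i + v i) g ≠ 0 →
      evt (C.comp (Rat.castHom F)) (tS a v) g ≠ 0 := by
    intro g hg h
    have h2 := comp_evt' (evalRingHom (1 : F)) (C.comp (Rat.castHom F)) (tS a v) g
    rw [h, map_zero] at h2
    have h3 := comp_evt' (Rat.castHom F) (RingHom.id ℚ) (fun i => a i + v i) g
    have h4 : evt (RingHom.id ℚ) (fun i => a i + v i) g = MvPolynomial.eval (fun i => a i + v i) g :=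
      rfl
    have h5 : (evalRingHom (1 : F)).comp (C.comp (Rat.castHom F)) =
        (Rat.castHom F).comp (RingHom.id ℚ) := RingHom.ext_rat _ _
    have h6 : (fun k => evalRingHom (1 : F) (tS a v k)) = fun k => Rat.castHom F (a k + v k) := by
      funext k
      simp [tS]
    rw [h5, h6, ← h3, h4] at h2
    exact hg ((_root_.map_eq_zero (Rat.castHom F)).1 h2.symm)
  have hRs := hne R (left_ne_zero_of_mul hv)
  have hQs := hne Q (right_ne_zero_of_mul hv)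
  obtain ⟨N, hN⟩ : ∃ N, N = (evt (C.comp (Rat.castHom F)) (tS a v) R : F[X]).natDegree := ⟨_, rfl⟩
  obtain ⟨ρN, hρN, H, hH⟩ := newton m a v θa h0 h1 N
  obtain ⟨Ps, hPs⟩ : ∃ Ps, Ps = ev (C.comp (Rat.castHom F)) (tS a v) ρN P := ⟨_, rfl⟩
  have hnd : ¬ X ^ (N + 1) ∣ Ps := by
    intro h
    obtain ⟨k, hk⟩ := hdvd
    have h2 := congrArg (ev (C.comp (Rat.castHom F)) (tS a v) ρN) hk
    rw [map_sub, map_mul, ev_C, map_mul, ← hPs, hH] at h2
    obtain ⟨k', hk'⟩ := h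
    have h3 : X ^ (N + 1) ∣ (evt (C.comp (Rat.castHom F)) (tS a v) R : F[X]) := by
      refine ⟨k' * ev (C.comp (Rat.castHom F)) (tS a v) ρN P' -
        H * ev (C.comp (Rat.castHom F)) (tS a v) ρN k, ?_⟩
      rw [hk'] at h2
      linear_combination -h2
    have h4 := natDegree_le_of_dvd h3 hRs
    rw [natDegree_X_pow, ← hN] at h4
    omega
  have hPs0 : Ps ≠ 0 := by
    rintro h
    apply hnd
    rw [h]
    exact dvd_zero _
  obtain ⟨P1, hP1, hP1'⟩ := exists_eq_pow_rootMultiplicity_mul_and_not_dvd _ hPs0 0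
  obtain ⟨Q1, hQ1, hQ1'⟩ := exists_eq_pow_rootMultiplicity_mul_and_not_dvd _ hQs 0
  rw [dvd_iff_isRoot, IsRoot.def] at hP1' hQ1'
  rw [C_0, sub_zero] at hP1 hQ1
  have hd : rootMultiplicity 0 Ps ≤ N := by
    by_contra hcon
    push Not at hcon
    apply hnd
    rw [hP1]
    exact (pow_dvd_pow X hcon).mul_right _
  refine ⟨P1.eval 0 / Q1.eval 0, div_ne_zero hP1' hQ1', fun L _ _ j ε hε => ?_⟩
  exact near_aux j m a v θa h0 h1 N ρN hρN H hH P Q P1 Q1 _ _ hd (hPs ▸ hP1) hQ1 hP1' hQ1' l hl ε hε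

end Pool.Agent.Zk47.HT
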