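import Pool.Agent.Zk47.HT.Map
import Pool.Agent.Y157.GT.All
import Pool.Agent.Zk12.HT.Stm

/-! # Project HT, part B: the tower (with `κ`, `Ω` and the covering field) -/

set_option autoImplicit false
set_option linter.all false

open Polynomial FF

namespace Pool.Agent.Zk47.HT

open Pool.Agent.Y157.PS Pool.Agent.Y157.GT Pool.Agent.Zk12.HT

section restr

variable {G Ω : Type} [Group G] [Field Ω]

/-- the restriction of an action to a stable subfield -/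
noncomputable def restrHom {R : Type} [Field R] [Algebra R Ω] (M : IntermediateField R Ω)
    (S : G →* RingAut Ω) (h : ∀ g, ∀ z ∈ M, S g z ∈ M) : G →* RingAut M where
  toFun g :=
    { toFun := fun w => ⟨S g w.1, h g _ w.2⟩
      invFun := fun w => ⟨S g⁻¹ w.1, h _ _ w.2⟩
      left_inv := fun w => Subtype.ext (by
        change S g⁻¹ (S g w.1) = w.1
        rw [map_inv]
        exact (S g).symm_apply_apply _)
      right_inv := fun w => Subtype.ext (by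
        change S g (S g⁻¹ w.1) = w.1
        rw [map_inv]
        exact (S g).apply_symm_apply _)
      map_mul' := fun w w' => Subtype.ext (map_mul (S g) _ _)
      map_add' := fun w w' => Subtype.ext (map_add (S g) _ _) }
  map_one' := by
    ext w
    change S 1 w.1 = w.1
    rw [map_one]
    rfl
  map_mul' g g' := by
    ext w
    change S (g * g') w.1 = S g (S g' w.1)
    rw [map_mul]
    rfl

theorem restrHom_apply {R : Type} [Field R] [Algebra R Ω] (M : IntermediateField R Ω)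
    (S : G →* RingAut Ω) (h : ∀ g, ∀ z ∈ M, S g z ∈ M) (g : G) (w : M) :
    ((restrHom M S h g w : M) : Ω) = S g w := rfl

end restr

open scoped Classical in
/-- **the core**: `Ω` is an algebraic closure of `κ(X₀)` -/
theorem core (hGT : S_GT) (hCOV : S_COV) (hA : S_TOWA) {k K κ Ω : Type} [Field k] [CharZero k]
    [Field K] [Algebra k K] [Field κ] [Algebra K κ] [IsAlgClosure K κ] [Field Ω] [Algebra κ Ω]
    (hfg : (⊤ : IntermediateField ℚ k).FG) (t : K) (ht : Transcendental k t)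
    (htop : IntermediateField.adjoin k {t} = ⊤) (c₀ : k) (m : ℤ) (δ : κ) (hc₀ : c₀ ≠ 0)
    (hm : ¬ ((2 : ℕ) : ℤ) ∣ m) (hδ : δ ^ 2 = algebraMap K κ (algebraMap k K c₀ * t ^ m))
    (X0 : Ω) (hX0 : Transcendental κ X0)
    [IsAlgClosure (IntermediateField.adjoin κ {X0}) Ω]
    (B : Finset κ) (hdvd : 2 ∣ B.card) (h3 : 3 ≤ B.card)
    (hB : ∀ e ∈ B, ∃ P : k[X], P ≠ 0 ∧ P.eval₂ ((algebraMap K κ).comp (algebraMap k K)) e = 0)
    (Y0 : Ω) (hY : Y0 ^ 2 = ∏ e ∈ B, (X0 - algebraMap κ Ω e))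
    (S : (κ ≃ₐ[K] κ) →* RingAut Ω)
    (hS : ∀ σ c, S σ (algebraMap κ Ω c) = algebraMap κ Ω (σ c)) (hSx : ∀ σ, S σ X0 = X0)
    (hSy : ∀ σ, S σ Y0 = algebraMap κ Ω (σ δ / δ) * Y0)
    (hcont : ∀ z : Ω, ∃ E : IntermediateField K κ, FiniteDimensional K E ∧
      ∀ σ ∈ E.fixingSubgroup, S σ z = z) :
    ∃ e ∈ B, (∀ σ : κ ≃ₐ[K] κ, σ e = e) ∧
      ∃ (a b c q : κ) (X α β γ : ℕ → Ω), a ≠ b ∧ b ≠ c ∧ a ≠ c ∧
        (∃ e₁ ∈ B, e₁ ≠ e ∧ a = (e₁ - e)⁻¹) ∧ (∃ e₁ ∈ B, e₁ ≠ e ∧ b = (e₁ - e)⁻¹) ∧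
        (∃ e₁ ∈ B, e₁ ≠ e ∧ c = (e₁ - e)⁻¹) ∧ q ^ 2 = - ∏ e₁ ∈ B.erase e, (e₁ - e) ∧
        X 0 = (X0 - algebraMap κ Ω e)⁻¹ ∧
        Halves (algebraMap κ Ω a) (algebraMap κ Ω b) (algebraMap κ Ω c) X α β γ ∧
        ∀ g : κ ≃ₐ[K] κ, (∀ z ∈ B, g z = z) → g q = q → g δ = δ →
          ∀ j, S g (X j) = X j ∧ S g (α j) = α j ∧ S g (β j) = β j ∧ S g (γ j) = γ j := by
  haveI : Fact (Nat.Prime 2) := ⟨Nat.prime_two⟩
  haveI hkb : IsAlgClosed κ := IsAlgClosure.isAlgClosed K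
  haveI hch0 : CharZero K := charZero_of_injective_algebraMap (algebraMap k K).injective
  haveI hch : CharZero κ := charZero_of_injective_algebraMap (algebraMap K κ).injective
  have hδ0 : δ ≠ 0 := by
    rintro rfl
    have ht0 : t ≠ 0 := by
      rintro rfl
      exact ht isAlgebraic_zero
    rw [zero_pow two_ne_zero] at hδ
    exact (_root_.map_ne_zero _).2
      (mul_ne_zero ((_root_.map_ne_zero _).2 hc₀) (zpow_ne_zero m ht0)) hδ.symm
  have hrat := ratF_adj hX0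
  obtain ⟨M, hM⟩ : ∃ M : IntermediateField (IntermediateField.adjoin κ {X0}) Ω,
      ∀ z, z ∈ M ↔ z ∈ maxPro 2 κ (IntermediateField.adjoin (IntermediateField.adjoin κ {X0})
        {Y0}) Ω :=
    ⟨(maxPro 2 κ (IntermediateField.adjoin (IntermediateField.adjoin κ {X0}) {Y0})
      Ω).restrictScalars _, fun z => Iff.rfl⟩
  have hYM : Y0 ∈ M := by
    rw [hM]
    exact (maxPro 2 κ (IntermediateField.adjoin (IntermediateField.adjoin κ {X0}) {Y0})
      Ω).algebraMap_mem ⟨Y0, IntermediateField.mem_adjoin_simple_self _ _⟩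
  have hCov : Cov 2 κ (IntermediateField.adjoin κ {X0}) M
      ⟨X0, IntermediateField.mem_adjoin_simple_self κ X0⟩ B ⟨Y0, hYM⟩ :=
    hCOV 2 κ (IntermediateField.adjoin κ {X0}) Ω _ hrat B hdvd h3 Y0 hY M hM ⟨Y0, hYM⟩ rfl
  have hstab : ∀ σ, ∀ z ∈ M, S σ z ∈ M := by
    intro σ z hz
    rw [hM] at hz ⊢
    have h1 := hSy σ⁻¹
    rw [map_inv] at h1
    exact maxPro_stable (S σ) (σ : κ ≃+* κ) (fun c => hS σ c) (hSx σ) ⟨_, hSy σ⟩ ⟨_, h1⟩ z hz
  let s' : (κ ≃ₐ[K] κ) →* RingAut M := restrHom M S hstab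
  have hs' : ∀ σ (w : M), ((s' σ w : M) : Ω) = S σ w := fun σ w => rfl
  have hSec : Sec K κ (IntermediateField.adjoin κ {X0}) M
      ⟨X0, IntermediateField.mem_adjoin_simple_self κ X0⟩ ⟨Y0, hYM⟩ δ s' := by
    refine ⟨fun σ c => Subtype.ext ?_, fun σ => Subtype.ext (hSx σ), fun σ => Subtype.ext ?_,
      fun z => ?_⟩
    · exact hS σ c
    · exact hSy σ
    · obtain ⟨E, hE, hE'⟩ := hcont (z : Ω)
      exact ⟨E, hE, fun σ hσ => Subtype.ext (hE' σ hσ)⟩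
  obtain ⟨W, ⟨e, heB, hWe, hfix⟩, hWfix, -⟩ := hGT 2 k K κ (IntermediateField.adjoin κ {X0}) M hfg t
    ht htop c₀ m δ hc₀ hm hδ _ B _ hCov hB s' hSec
  obtain ⟨a, b, c, q, X, α, β, γ, hab, hbc, hac, ha, hb, hc, hq, hX, hH, htau⟩ :=
    hA κ (IntermediateField.adjoin κ {X0}) M _ B _ hCov W e heB hWe
  refine ⟨e, heB, hfix, a, b, c, q, fun j => X j, fun j => α j, fun j => β j, fun j => γ j, hab, hbc,
    hac, ha, hb, hc, hq, ?_, ?_, ?_⟩
  · exact congrArg (fun w : M => (w : Ω)) hX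
  · intro j
    obtain ⟨h1, h2, h3, h4⟩ := hH j
    exact ⟨congrArg (fun w : M => (w : Ω)) h1, congrArg (fun w : M => (w : Ω)) h2,
      congrArg (fun w : M => (w : Ω)) h3, congrArg (fun w : M => (w : Ω)) h4⟩
  · intro g hg hgq hgδ j
    have hYfix : s' g ⟨Y0, hYM⟩ = ⟨Y0, hYM⟩ := by
      apply Subtype.ext
      rw [hs']
      change S g Y0 = Y0
      rw [hSy, hgδ, div_self hδ0, map_one, one_mul]
    obtain ⟨h1, h2, h3, h4⟩ := htau (s' g) (g : κ ≃+* κ) (hSec.const g) (hSec.fixx g) (hWfix g) hg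
      hgq hYfix j
    exact ⟨congrArg (fun w : M => (w : Ω)) h1, congrArg (fun w : M => (w : Ω)) h2,
      congrArg (fun w : M => (w : Ω)) h3, congrArg (fun w : M => (w : Ω)) h4⟩

end Pool.Agent.Zk47.HT
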