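import Pool.Agent.Y157.PS.GeoC

/-! # The maximal pro-`ℓ` extension: transport of structure -/

set_option autoImplicit false
set_option linter.all false

open Polynomial FF

namespace Pool.Agent.Zk47.HT

open Pool.Agent.Y157.PS

section map

variable {κ₁ κ₂ K₁ K₂ Ω₁ Ω₂ : Type} [Field κ₁] [Field κ₂] [Field K₁] [Field K₂] [Field Ω₁] [Field Ω₂]
  [Algebra κ₁ Ω₁] [Algebra κ₂ Ω₂] [Algebra K₁ Ω₁] [Algebra K₂ Ω₂]

/-- the image of an intermediate field -/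
def img (e : K₁ ≃+* K₂) (τ : Ω₁ ≃+* Ω₂) (he : ∀ a, algebraMap K₂ Ω₂ (e a) = τ (algebraMap K₁ Ω₁ a))
    (L : IntermediateField K₁ Ω₁) : IntermediateField K₂ Ω₂ :=
  { L.toSubfield.comap (τ.symm : Ω₂ →+* Ω₁) with
    algebraMap_mem' := fun a => by
      have h1 : algebraMap K₂ Ω₂ a = τ (algebraMap K₁ Ω₁ (e.symm a)) := by
        rw [← he, e.apply_symm_apply]
      rw [h1]
      change (τ.symm (τ (algebraMap K₁ Ω₁ (e.symm a)))) ∈ L
      rw [τ.symm_apply_apply]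
      exact L.algebraMap_mem _ }

theorem mem_img (e : K₁ ≃+* K₂) (τ : Ω₁ ≃+* Ω₂)
    (he : ∀ a, algebraMap K₂ Ω₂ (e a) = τ (algebraMap K₁ Ω₁ a))
    (L : IntermediateField K₁ Ω₁) (z : Ω₂) : z ∈ img e τ he L ↔ τ.symm z ∈ L := Iff.rfl

theorem img_lev {ℓ : ℕ} (e : K₁ ≃+* K₂) (τ : Ω₁ ≃+* Ω₂)
    (he : ∀ a, algebraMap K₂ Ω₂ (e a) = τ (algebraMap K₁ Ω₁ a))
    (L : IntermediateField K₁ Ω₁) (h : Lev ℓ L) : Lev ℓ (img e τ he L) := by
  let g : L ≃+* img e τ he L :=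
    { toFun := fun z => ⟨τ z.1, by rw [mem_img, τ.symm_apply_apply]; exact z.2⟩
      invFun := fun z => ⟨τ.symm z.1, z.2⟩
      left_inv := fun z => Subtype.ext (τ.symm_apply_apply _)
      right_inv := fun z => Subtype.ext (τ.apply_symm_apply _)
      map_mul' := fun z w => Subtype.ext (map_mul τ _ _)
      map_add' := fun z w => Subtype.ext (map_add τ _ _) }
  have hcomp : (algebraMap K₂ (img e τ he L)).comp (e : K₁ →+* K₂) =
      (g : L →+* img e τ he L).comp (algebraMap K₁ L) := by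
    ext a
    exact he a
  have h1 := h.fin
  have h2 := h.gal
  obtain ⟨m, hm⟩ := h.card
  exact ⟨Module.Finite.of_equiv_equiv e g hcomp, IsGalois.of_equiv_equiv (f := e) (g := g) hcomp,
    m, by rw [← Algebra.finrank_eq_of_equiv_equiv e g hcomp, hm]⟩

theorem img_unr (e : K₁ ≃+* K₂) (τ : Ω₁ ≃+* Ω₂)
    (he : ∀ a, algebraMap K₂ Ω₂ (e a) = τ (algebraMap K₁ Ω₁ a))
    (hκ : ∀ W : ValuationSubring Ω₂, (∀ c, algebraMap κ₂ Ω₂ c ∈ W) →
      ∀ c, τ (algebraMap κ₁ Ω₁ c) ∈ W)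
    (L : IntermediateField K₁ Ω₁) (h : Unr κ₁ K₁ Ω₁ L) : Unr κ₂ K₂ Ω₂ (img e τ he L) := by
  intro W hW z hz hz0
  obtain ⟨t, ht, h0, h1, h2⟩ := h (W.comap (τ : Ω₁ →+* Ω₂)) (hκ W hW) (τ.symm z) hz
    ((map_ne_zero_iff _ τ.symm.injective).2 hz0)
  refine ⟨e t, (map_ne_zero_iff e e.injective).2 ht, ?_⟩
  have h3 : τ (τ.symm z / algebraMap K₁ Ω₁ t) = z / algebraMap K₂ Ω₂ (e t) := by
    rw [map_div₀, τ.apply_symm_apply, he]
  rw [← h3]
  refine ⟨(map_ne_zero_iff _ τ.injective).2 h0, h1, ?_⟩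
  rw [← map_inv₀]
  exact h2

theorem maxPro_map {ℓ : ℕ} (e : K₁ ≃+* K₂) (τ : Ω₁ ≃+* Ω₂)
    (he : ∀ a, algebraMap K₂ Ω₂ (e a) = τ (algebraMap K₁ Ω₁ a))
    (hκ : ∀ W : ValuationSubring Ω₂, (∀ c, algebraMap κ₂ Ω₂ c ∈ W) →
      ∀ c, τ (algebraMap κ₁ Ω₁ c) ∈ W)
    (z : Ω₁) (hz : z ∈ maxPro ℓ κ₁ K₁ Ω₁) : τ z ∈ maxPro ℓ κ₂ K₂ Ω₂ := by
  have he' : ∀ a, algebraMap K₁ Ω₁ (e.symm a) = τ.symm (algebraMap K₂ Ω₂ a) := by
    intro a
    apply τ.injective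
    rw [← he, e.apply_symm_apply, τ.apply_symm_apply]
  have h1 : maxPro ℓ κ₁ K₁ Ω₁ ≤ img e.symm τ.symm he' (maxPro ℓ κ₂ K₂ Ω₂) := by
    refine iSup_le fun L => ?_
    intro w hw
    rw [mem_img]
    have h2 : img e τ he L.1 ≤ maxPro ℓ κ₂ K₂ Ω₂ :=
      le_iSup (fun L : {L : IntermediateField K₂ Ω₂ // Lev ℓ L ∧ Unr κ₂ K₂ Ω₂ L} => L.1)
        ⟨img e τ he L.1, img_lev e τ he L.1 L.2.1, img_unr e τ he hκ L.1 L.2.2⟩
    apply h2
    rw [mem_img]
    change τ.symm (τ w) ∈ L.1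
    rw [τ.symm_apply_apply]
    exact hw
  have h3 := h1 hz
  rw [mem_img] at h3
  exact h3

end map

section stable

variable {κ Ω : Type} [Field κ] [Field Ω] [Algebra κ Ω]

/-- `κ(x)` is mapped to itself by the semilinear automorphisms which fix `x` -/
theorem adj_stable {X0 : Ω} (τ : Ω →+* Ω) (σ : κ → κ)
    (hc : ∀ c, τ (algebraMap κ Ω c) = algebraMap κ Ω (σ c)) (hx : τ X0 = X0) (z : Ω)
    (hz : z ∈ IntermediateField.adjoin κ {X0}) : τ z ∈ IntermediateField.adjoin κ {X0} := by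
  refine adjoin_le_sub (T := (IntermediateField.adjoin κ {X0}).toSubfield.comap τ) ?_ ?_ z hz
  · intro c
    rw [Subfield.mem_comap, hc]
    exact (IntermediateField.adjoin κ {X0}).algebraMap_mem _
  · intro w hw
    rw [Set.mem_singleton_iff] at hw
    rw [hw, Subfield.mem_comap, hx]
    exact IntermediateField.mem_adjoin_simple_self κ X0

theorem adj_stable2 {X0 Y0 : Ω} (τ : Ω →+* Ω) (σ : κ → κ)
    (hc : ∀ c, τ (algebraMap κ Ω c) = algebraMap κ Ω (σ c)) (hx : τ X0 = X0)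
    (hy : ∃ c : κ, τ Y0 = algebraMap κ Ω c * Y0) (z : Ω)
    (hz : z ∈ IntermediateField.adjoin (IntermediateField.adjoin κ {X0}) {Y0}) :
    τ z ∈ IntermediateField.adjoin (IntermediateField.adjoin κ {X0}) {Y0} := by
  set K1 := IntermediateField.adjoin (IntermediateField.adjoin κ {X0}) {Y0} with hK1
  have hR : ∀ w : Ω, w ∈ IntermediateField.adjoin κ {X0} → w ∈ K1 :=
    fun w hw => K1.algebraMap_mem ⟨w, hw⟩
  refine adjoin_le_sub (T := K1.toSubfield.comap τ) ?_ ?_ z hz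
  · intro c
    rw [Subfield.mem_comap]
    exact hR _ (adj_stable τ σ hc hx _ c.2)
  · intro w hw
    rw [Set.mem_singleton_iff] at hw
    obtain ⟨c, hc'⟩ := hy
    rw [hw, Subfield.mem_comap, hc']
    exact mul_mem (S := Subfield Ω) (hR _ (IntermediateField.algebraMap_mem _ c))
      (IntermediateField.mem_adjoin_simple_self _ _)

/-- the covering field is stable -/
theorem maxPro_stable {ℓ : ℕ} {X0 Y0 : Ω} (τ : Ω ≃+* Ω) (σ : κ ≃+* κ)
    (hc : ∀ c, τ (algebraMap κ Ω c) = algebraMap κ Ω (σ c)) (hx : τ X0 = X0)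
    (hy : ∃ c : κ, τ Y0 = algebraMap κ Ω c * Y0)
    (hy' : ∃ c : κ, τ.symm Y0 = algebraMap κ Ω c * Y0) (z : Ω)
    (hz : z ∈ maxPro ℓ κ (IntermediateField.adjoin (IntermediateField.adjoin κ {X0}) {Y0}) Ω) :
    τ z ∈ maxPro ℓ κ (IntermediateField.adjoin (IntermediateField.adjoin κ {X0}) {Y0}) Ω := by
  have hc' : ∀ c, τ.symm (algebraMap κ Ω c) = algebraMap κ Ω (σ.symm c) := by
    intro c
    apply τ.injective
    rw [hc, τ.apply_symm_apply, σ.apply_symm_apply]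
  have hx' : τ.symm X0 = X0 := by
    apply τ.injective
    rw [hx, τ.apply_symm_apply]
  let e : IntermediateField.adjoin (IntermediateField.adjoin κ {X0}) {Y0} ≃+*
      IntermediateField.adjoin (IntermediateField.adjoin κ {X0}) {Y0} :=
    { toFun := fun w => ⟨τ w.1, adj_stable2 (τ : Ω →+* Ω) σ hc hx hy _ w.2⟩
      invFun := fun w => ⟨τ.symm w.1, adj_stable2 (τ.symm : Ω →+* Ω) σ.symm hc' hx' hy' _ w.2⟩
      left_inv := fun w => Subtype.ext (τ.symm_apply_apply _)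
      right_inv := fun w => Subtype.ext (τ.apply_symm_apply _)
      map_mul' := fun w w' => Subtype.ext (map_mul τ _ _)
      map_add' := fun w w' => Subtype.ext (map_add τ _ _) }
  refine maxPro_map e τ (fun a => rfl) (fun W hW c => ?_) z hz
  rw [hc]
  exact hW _

end stable

end Pool.Agent.Zk47.HT
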