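import Mathlib
import Pool.Agent.Zk80.HT.ObStm

/-! # Project HT+, part ON: evaluations, roots near a simple root, independent points -/

set_option autoImplicit false
set_option linter.all false

open Polynomial Filter Topology

namespace Pool.Agent.Zk47.HT

open Pool.Agent.Zk80.HT

section comp

variable {n : ℕ} {R S : Type} [CommRing R] [CommRing S]

theorem comp_evt (φ : R →+* S) (i : ℚ →+* R) (t : Fin n → R) :
    φ.comp (evt i t) = evt (φ.comp i) (fun k => φ (t k)) := by
  apply MvPolynomial.ringHom_ext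
  · intro r
    simp [evt]
  · intro k
    simp [evt]

theorem comp_evt' (φ : R →+* S) (i : ℚ →+* R) (t : Fin n → R) (g : A n) :
    φ (evt i t g) = evt (φ.comp i) (fun k => φ (t k)) g :=
  RingHom.congr_fun (comp_evt φ i t) g

theorem comp_ev (φ : R →+* S) (i : ℚ →+* R) (t : Fin n → R) (θ : R) :
    φ.comp (ev i t θ) = ev (φ.comp i) (fun k => φ (t k)) (φ θ) := by
  apply Polynomial.ringHom_ext
  · intro r
    simp only [ev, RingHom.comp_apply, coe_eval₂RingHom, eval₂_C]
    exact comp_evt' φ i t r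
  · simp [ev]

theorem comp_ev' (φ : R →+* S) (i : ℚ →+* R) (t : Fin n → R) (θ : R) (g : (A n)[X]) :
    φ (ev i t θ g) = ev (φ.comp i) (fun k => φ (t k)) (φ θ) g :=
  RingHom.congr_fun (comp_ev φ i t θ) g

theorem ev_C (i : ℚ →+* R) (t : Fin n → R) (θ : R) (g : A n) : ev i t θ (C g) = evt i t g := by
  simp [ev]

theorem ev_eval (i : ℚ →+* R) (t : Fin n → R) (θ : R) (g : (A n)[X]) :
    ev i t θ g = (g.map (evt i t)).eval θ := by
  simp only [ev, coe_eval₂RingHom, eval₂_eq_eval_map]

end comp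

section newton

variable {n : ℕ} {F : Type} [Field F]

/-- the point of the line -/
noncomputable def tS (a v : Fin n → ℚ) : Fin n → F[X] :=
  fun k => C ((a k : ℚ) : F) + X * C ((v k : ℚ) : F)

theorem newton [CharZero F] (m : (A n)[X]) (a v : Fin n → ℚ) (θa : F)
    (h0 : ev (Rat.castHom F) (fun i => (a i : F)) θa m = 0)
    (h1 : ev (Rat.castHom F) (fun i => (a i : F)) θa (derivative m) ≠ 0) (N : ℕ) :
    ∃ ρ : F[X], ρ.eval 0 = θa ∧
      X ^ (N + 1) ∣ ev (C.comp (Rat.castHom F)) (tS a v) ρ m := by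
  have hz : ∀ (ρ : F[X]) (g : (A n)[X]), (ev (C.comp (Rat.castHom F)) (tS a v) ρ g).eval 0 =
      ev (Rat.castHom F) (fun i => (a i : F)) (ρ.eval 0) g := by
    intro ρ g
    have h2 := comp_ev' (evalRingHom (0 : F)) (C.comp (Rat.castHom F)) (tS a v) ρ g
    rw [coe_evalRingHom] at h2
    rw [h2]
    have h3 : (evalRingHom (0 : F)).comp (C.comp (Rat.castHom F)) = Rat.castHom F :=
      RingHom.ext_rat _ _
    have h4 : (fun k => eval (0 : F) (tS a v k)) = fun i => ((a i : ℚ) : F) := by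
      funext k
      simp [tS]
    rw [h3, h4]
  induction N with
  | zero =>
    refine ⟨C θa, eval_C, ?_⟩
    rw [zero_add, pow_one, X_dvd_iff, coeff_zero_eq_eval_zero, hz, eval_C, h0]
  | succ N ih =>
    obtain ⟨ρ, hρ, g, hg⟩ := ih
    obtain ⟨c, hc⟩ : ∃ c : F, g.eval 0 +
        ev (Rat.castHom F) (fun i => (a i : F)) θa (derivative m) * c = 0 :=
      ⟨-g.eval 0 / ev (Rat.castHom F) (fun i => (a i : F)) θa (derivative m), by
        field_simp
        ring⟩
    refine ⟨ρ + C c * X ^ (N + 1), by simp [hρ], ?_⟩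
    obtain ⟨k, hk⟩ := Polynomial.binomExpansion (m.map (evt (C.comp (Rat.castHom F)) (tS a v))) ρ
      (C c * X ^ (N + 1))
    rw [← ev_eval, ← ev_eval, derivative_map, ← ev_eval, hg] at hk
    have h2 : X ∣ g + ev (C.comp (Rat.castHom F)) (tS a v) ρ (derivative m) * C c := by
      rw [X_dvd_iff, coeff_zero_eq_eval_zero, eval_add, eval_mul, eval_C, hz, hρ, hc]
    obtain ⟨g', hg'⟩ := h2
    refine ⟨g' + k * C c ^ 2 * X ^ N, ?_⟩
    rw [hk]
    linear_combination X ^ (N + 1) * hg'

end newton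

section near

variable {n : ℕ} {L : Type} [NontriviallyNormedField L] (i : ℚ →+* L)

/-- the difference quotient in the last variable -/
noncomputable def GG (f : (A n)[X]) (q : (Fin n → L) × L × L) : L :=
  ∑ k ∈ Finset.range (f.natDegree + 1), evt i q.1 (f.coeff k) *
    ∑ r ∈ Finset.range k, q.2.1 ^ r * q.2.2 ^ (k - 1 - r)

theorem evt_cont (g : A n) : Continuous fun τ : Fin n → L => evt i τ g := by
  have h : (fun τ : Fin n → L => evt i τ g) =
      fun τ => MvPolynomial.eval τ (MvPolynomial.map i g) := by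
    funext τ
    rw [MvPolynomial.eval_map]
    rfl
  rw [h]
  exact MvPolynomial.continuous_eval _

theorem ev_sum (f : (A n)[X]) (τ : Fin n → L) (x : L) : ev i τ x f =
    ∑ k ∈ Finset.range (f.natDegree + 1), evt i τ (f.coeff k) * x ^ k := by
  rw [ev, coe_eval₂RingHom, eval₂_eq_sum_range]

theorem ev_cont (f : (A n)[X]) : Continuous fun q : (Fin n → L) × L => ev i q.1 q.2 f := by
  simp only [ev_sum]
  apply continuous_finset_sum
  intro k _
  exact ((evt_cont i (f.coeff k)).comp continuous_fst).mul (continuous_snd.pow k)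

theorem GG_cont (f : (A n)[X]) : Continuous (GG i f : (Fin n → L) × L × L → L) := by
  unfold GG
  apply continuous_finset_sum
  intro k _
  refine ((evt_cont i (f.coeff k)).comp continuous_fst).mul ?_
  apply continuous_finset_sum
  intro r _
  exact ((continuous_fst.comp continuous_snd).pow r).mul
    ((continuous_snd.comp continuous_snd).pow _)

theorem GG_sub (f : (A n)[X]) (τ : Fin n → L) (x y : L) :
    ev i τ x f - ev i τ y f = GG i f (τ, x, y) * (x - y) := by
  rw [ev_sum, ev_sum, GG, ← Finset.sum_sub_distrib, Finset.sum_mul]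
  refine Finset.sum_congr rfl fun k _ => ?_
  rw [mul_assoc, geom_sum₂_mul, mul_sub]

theorem GG_diag (f : (A n)[X]) (τ : Fin n → L) (x : L) :
    GG i f (τ, x, x) = ev i τ x (derivative f) := by
  rw [ev_eval, ← derivative_map, derivative_eval,
    sum_over_range' _ (fun k => by simp) (f.natDegree + 1)
      (Nat.lt_succ_of_le natDegree_map_le), GG]
  refine Finset.sum_congr rfl fun k _ => ?_
  rw [coeff_map]
  simp only
  rw [geom_sum₂_self]
  ring

/-- **roots near a simple root** -/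
theorem open_root [CompleteSpace L] (m : (A n)[X]) (τ₀ : Fin n → L) (ρ₀ : L)
    (h0 : ev i τ₀ ρ₀ m = 0) (h1 : ev i τ₀ ρ₀ (derivative m) ≠ 0) (η : ℝ) (hη : 0 < η) :
    ∀ᶠ τ in 𝓝 τ₀, ∃ ρ : L, ‖ρ - ρ₀‖ ≤ η ∧ ev i τ ρ m = 0 := by
  obtain ⟨μ, hμ⟩ : ∃ μ, μ = ev i τ₀ ρ₀ (derivative m) := ⟨_, rfl⟩
  rw [← hμ] at h1
  have hμp : 0 < ‖μ‖ := norm_pos_iff.2 h1
  -- the contraction estimate
  have hc1 : Continuous fun q : (Fin n → L) × L × L => ‖1 - GG i m q / μ‖ :=
    (continuous_const.sub ((GG_cont i m).div_const μ)).norm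
  have hN : {q : (Fin n → L) × L × L | ‖1 - GG i m q / μ‖ < 1 / 2} ∈ 𝓝 (τ₀, ρ₀, ρ₀) := by
    apply (isOpen_lt hc1 continuous_const).mem_nhds
    change ‖1 - GG i m (τ₀, ρ₀, ρ₀) / μ‖ < 1 / 2
    rw [GG_diag, ← hμ, div_self h1, sub_self, norm_zero]
    norm_num
  obtain ⟨δ, hδ, hball⟩ := Metric.mem_nhds_iff.1 hN
  obtain ⟨η', hη'⟩ : ∃ η', η' = min η (δ / 2) := ⟨_, rfl⟩
  have hη'0 : 0 < η' := by
    rw [hη']
    exact lt_min hη (by linarith)
  have hη'δ : η' < δ := by
    rw [hη']
    exact lt_of_le_of_lt (min_le_right _ _) (by linarith)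
  have hη'η : η' ≤ η := by
    rw [hη']
    exact min_le_left _ _
  have hE1 : ∀ᶠ τ in 𝓝 τ₀, dist τ τ₀ < δ := Metric.ball_mem_nhds τ₀ hδ
  have hE2 : ∀ᶠ τ in 𝓝 τ₀, ‖ev i τ ρ₀ m / μ‖ < η' / 2 := by
    have h2 : Continuous fun τ : Fin n → L => ‖ev i τ ρ₀ m / μ‖ :=
      (((ev_cont i m).comp (continuous_id.prodMk continuous_const)).div_const μ).norm
    have h3 := h2.tendsto τ₀
    rw [h0, zero_div, norm_zero] at h3
    exact h3.eventually_lt_const (by linarith)
  filter_upwards [hE1, hE2] with τ hτ1 hτ2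
  -- the map
  let T : L → L := fun x => x - ev i τ x m / μ
  have hdiff : ∀ x y, T x - T y = (x - y) * (1 - GG i m (τ, x, y) / μ) := by
    intro x y
    have h2 := GG_sub i m τ x y
    simp only [T]
    field_simp
    linear_combination -h2
  have hlip : ∀ x y, dist x ρ₀ < δ → dist y ρ₀ < δ → dist (T x) (T y) ≤ 1 / 2 * dist x y := by
    intro x y hx hy
    have h2 : (τ, x, y) ∈ Metric.ball (τ₀, ρ₀, ρ₀) δ := by
      rw [Metric.mem_ball, Prod.dist_eq, Prod.dist_eq]
      exact max_lt hτ1 (max_lt hx hy)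
    have h3 : ‖1 - GG i m (τ, x, y) / μ‖ < 1 / 2 := hball h2
    rw [dist_eq_norm, hdiff, norm_mul, dist_eq_norm, mul_comm]
    exact mul_le_mul_of_nonneg_right h3.le (norm_nonneg _)
  have hT0 : dist (T ρ₀) ρ₀ < η' / 2 := by
    rw [dist_eq_norm]
    have h2 : T ρ₀ - ρ₀ = -(ev i τ ρ₀ m / μ) := by
      simp only [T]
      ring
    rw [h2, norm_neg]
    exact hτ2
  have hmaps : Set.MapsTo T (Metric.closedBall ρ₀ η') (Metric.closedBall ρ₀ η') := by
    intro x hx
    rw [Metric.mem_closedBall] at hx ⊢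
    have h2 := hlip x ρ₀ (lt_of_le_of_lt hx hη'δ) (by rw [dist_self]; exact hδ)
    have h3 := dist_triangle (T x) (T ρ₀) ρ₀
    linarith
  have hcon : ContractingWith (1 / 2) (hmaps.restrict T _ _) := by
    refine ⟨by norm_num, LipschitzWith.of_dist_le_mul fun x y => ?_⟩
    have h2 := hlip x.1 y.1 (lt_of_le_of_lt x.2 hη'δ) (lt_of_le_of_lt y.2 hη'δ)
    have h3 : ((1 / 2 : NNReal) : ℝ) = 1 / 2 := by norm_num
    rw [h3]
    exact h2
  have hcompl : IsComplete (Metric.closedBall ρ₀ η') := Metric.isClosed_closedBall.isComplete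
  obtain ⟨y, hy, hfix, -⟩ := hcon.exists_fixedPoint' hcompl hmaps
    (Metric.mem_closedBall_self hη'0.le) (edist_ne_top _ _)
  refine ⟨y, ?_, ?_⟩
  · rw [Metric.mem_closedBall, dist_eq_norm] at hy
    exact hy.trans hη'η
  · have h2 : y - ev i τ y m / μ = y := hfix
    have h3 : ev i τ y m / μ = 0 := by linear_combination -h2
    exact (div_eq_zero_iff.1 h3).resolve_right h1

theorem map_ne_zero' (g : A n) (hg : g ≠ 0) : MvPolynomial.map i g ≠ 0 := by
  intro h
  apply hg
  apply MvPolynomial.map_injective i i.injective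
  rw [h, map_zero]

theorem exists_evt_ne (g : A n) (hg : g ≠ 0) (τ : Fin n → L) :
    ∃ v : Fin n → L, evt i (fun k => τ k + v k) g ≠ 0 := by
  haveI : CharZero L := charZero_of_injective_ringHom i.injective
  haveI : Infinite L := inferInstance
  by_contra h
  push Not at h
  apply map_ne_zero' i g hg
  apply MvPolynomial.funext
  intro x
  have h1 := h (fun k => x k - τ k)
  simp only [add_sub_cancel] at h1
  rw [MvPolynomial.eval_map, map_zero]
  exact h1

theorem dense_ne' (g : A n) (hg : g ≠ 0) : Dense {τ : Fin n → L | evt i τ g ≠ 0} := by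
  classical
  intro τ
  obtain ⟨v, hv⟩ := exists_evt_ne i g hg τ
  -- the polynomial on the line
  obtain ⟨q, hq⟩ : ∃ q : L[X], q = evt (C.comp i) (fun k => C (τ k) + X * C (v k)) g := ⟨_, rfl⟩
  have hqs : ∀ s : L, q.eval s = evt i (fun k => τ k + s * v k) g := by
    intro s
    have h1 := comp_evt' (evalRingHom s) (C.comp i) (fun k => C (τ k) + X * C (v k)) g
    rw [coe_evalRingHom, ← hq] at h1
    rw [h1]
    congr 1
    congr 1
    · ext
      simp
    · funext k
      rw [eval_add, eval_mul, eval_C, eval_X, eval_C]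
  have hne : q ≠ 0 := by
    intro h
    apply hv
    have h1 := hqs 1
    rw [h, eval_zero] at h1
    simpa using h1.symm
  rw [mem_closure_iff_nhds]
  intro U hU
  have hc : Tendsto (fun s : L => fun k => τ k + s * v k) (𝓝[≠] 0) (𝓝 τ) := by
    have h1 : Continuous (fun s : L => fun k => τ k + s * v k) := by fun_prop
    have h2 := h1.tendsto 0
    simp only [zero_mul, add_zero] at h2
    exact h2.mono_left nhdsWithin_le_nhds
  have h3 : ∀ᶠ s in 𝓝[≠] (0 : L), (fun k => τ k + s * v k) ∈ U := hc hU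
  have h4 : ∀ᶠ s in 𝓝[≠] (0 : L), q.eval s ≠ 0 := by
    have hfin : ((q.roots.toFinset : Set L) \ {0}).Finite :=
      Set.Finite.subset (Finset.finite_toSet _) Set.diff_subset
    have h5 : ((q.roots.toFinset : Set L) \ {0})ᶜ ∈ 𝓝 (0 : L) := by
      apply hfin.isClosed.isOpen_compl.mem_nhds
      simp
    have h6 := nhdsWithin_le_nhds (s := {(0 : L)}ᶜ) h5
    filter_upwards [h6, self_mem_nhdsWithin] with s hs hs0 h0
    apply hs
    refine ⟨?_, hs0⟩
    simp only [Finset.mem_coe, Multiset.mem_toFinset]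
    exact (Polynomial.mem_roots hne).2 h0
  obtain ⟨s, hs1, hs2⟩ := (h3.and h4).exists
  refine ⟨_, hs1, ?_⟩
  rw [hqs] at hs2
  exact hs2

theorem dense_inj [CompleteSpace L] :
    Dense {τ : Fin n → L | Function.Injective (evt i τ)} := by
  have h : {τ : Fin n → L | Function.Injective (evt i τ)} =
      ⋂ g : {g : A n // g ≠ 0}, {τ | evt i τ g.1 ≠ 0} := by
    ext τ
    simp only [Set.mem_setOf_eq, Set.mem_iInter]
    rw [injective_iff_map_eq_zero]
    constructor
    · intro h g h0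
      exact g.2 (h g.1 h0)
    · intro h g h0
      by_contra hg
      exact h ⟨g, hg⟩ h0
  rw [h]
  have hcount : Countable (A n) := by
    have h1 := MvPolynomial.cardinalMk_le_max (σ := Fin n) (R := ℚ)
    rw [← Cardinal.mk_le_aleph0_iff]
    refine h1.trans ?_
    simp
  apply dense_iInter_of_isOpen
  · intro g
    exact isOpen_ne_fun (evt_cont i g.1) continuous_const
  · intro g
    exact dense_ne' i g.1 g.2

end near

end Pool.Agent.Zk47.HT
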